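import Pool.Agent.Q88.MK.Stm

/-! Project MK (helper88), job CHO (helper184): the choice of the parameters. -/

set_option autoImplicit false

open Set MvPolynomial

noncomputable section

namespace Pool.Agent.Q88.MK

namespace CHO

lemma le_two_pow (n : ℕ) : (n : ℝ) ≤ 2 ^ n := by
  exact_mod_cast (Nat.lt_two_pow_self (n := n)).le

end CHO

open CHO in
/-- **JOB CHO**. -/
theorem cho (h : S_set) (h1 : S_loc) : S_cho := by
  intro s p hirr hs hp R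
  obtain ⟨b, hb⟩ : ∃ b, b = 2 * R + 1 := ⟨_, rfl⟩
  have hb1 : 1 ≤ b := by omega
  obtain ⟨k₀, hk₀⟩ := h s b hirr hs hb1
  obtain ⟨c, hc⟩ : ∃ c, c = 9 * b + b ^ 2 + 3 := ⟨_, rfl⟩
  obtain ⟨K, hK⟩ : ∃ K, K = k₀ + 2 + 4 * c ^ R * (k₀ + b) ^ b := ⟨_, rfl⟩
  have hKk : k₀ ≤ K := by rw [hK]; omega
  have hK2 : 2 ≤ K := by rw [hK]; omega
  have hKb : 4 * c ^ R * (k₀ + b) ^ b < K := by rw [hK]; omega
  obtain ⟨T, hT1, hT2, hT3, hT4⟩ := hk₀ K hKk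
  obtain ⟨ρ, hρ⟩ : ∃ ρ : ℝ, ρ = 4 * (((k₀ : ℝ) + b) / ((K : ℝ) + b)) ^ b := ⟨_, rfl⟩
  obtain ⟨N, hN⟩ : ∃ N, N = 4 * b * K * (K + 1) + K + (K + b) * b + 1 := ⟨_, rfl⟩
  have hbR : (1 : ℝ) ≤ b := by exact_mod_cast hb1
  have hKR : (2 : ℝ) ≤ K := by exact_mod_cast hK2
  have hK0 : (0 : ℝ) < K := by linarith
  have hkb : (0 : ℝ) < (k₀ : ℝ) + b := by positivity
  have hKb0 : (0 : ℝ) < (K : ℝ) + b := by positivity
  have hρ0 : 0 < ρ := by rw [hρ]; positivity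
  -- the bound for `N`
  have hNK : ((N : ℝ) + 1) ≤ c * (K : ℝ) ^ 2 := by
    rw [hN, hc]
    push_cast
    have e1 : (K : ℝ) ≤ (K : ℝ) ^ 2 := by nlinarith
    have e2 : (1 : ℝ) ≤ (K : ℝ) ^ 2 := by nlinarith
    have e3 : 4 * (b : ℝ) * K ≤ 4 * b * (K : ℝ) ^ 2 := by
      have := mul_le_mul_of_nonneg_left e1 (show (0 : ℝ) ≤ 4 * b by positivity)
      linarith
    have e4 : (b : ℝ) * K ≤ b * (K : ℝ) ^ 2 := by
      have := mul_le_mul_of_nonneg_left e1 (show (0 : ℝ) ≤ b by positivity)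
      linarith
    have e5 : (b : ℝ) ^ 2 ≤ b ^ 2 * (K : ℝ) ^ 2 := by
      have := mul_le_mul_of_nonneg_left e2 (show (0 : ℝ) ≤ (b : ℝ) ^ 2 by positivity)
      linarith
    nlinarith
  have hmain : ((N : ℝ) + 1) ^ R * ρ < 1 := by
    have e1 : ((N : ℝ) + 1) ^ R ≤ (c * (K : ℝ) ^ 2) ^ R := pow_le_pow_left₀ (by positivity) hNK R
    have e2 : ρ ≤ 4 * (((k₀ : ℝ) + b) ^ b / (K : ℝ) ^ b) := by
      rw [hρ, div_pow]
      have e3 : (K : ℝ) ^ b ≤ ((K : ℝ) + b) ^ b := pow_le_pow_left₀ hK0.le (by linarith) b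
      have e4 : ((k₀ : ℝ) + b) ^ b / ((K : ℝ) + b) ^ b ≤ ((k₀ : ℝ) + b) ^ b / (K : ℝ) ^ b :=
        div_le_div_of_nonneg_left (by positivity) (by positivity) e3
      linarith
    have e3 : (4 * (c : ℝ) ^ R * ((k₀ : ℝ) + b) ^ b) < K := by exact_mod_cast hKb
    calc ((N : ℝ) + 1) ^ R * ρ ≤ (c * (K : ℝ) ^ 2) ^ R * (4 * (((k₀ : ℝ) + b) ^ b / (K : ℝ) ^ b)) :=
          mul_le_mul e1 e2 hρ0.le (by positivity)
      _ = (4 * (c : ℝ) ^ R * ((k₀ : ℝ) + b) ^ b) / K := by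
          have e4 : (K : ℝ) ^ b = (K : ℝ) ^ (2 * R) * K := by rw [hb, pow_succ]
          rw [e4, mul_pow, ← pow_mul]
          have e5 : (K : ℝ) ^ (2 * R) ≠ 0 := (pow_pos hK0 _).ne'
          field_simp
      _ < 1 := (div_lt_one hK0).2 e3
  have hρ1 : ρ < 1 := by
    have e1 : (1 : ℝ) ≤ ((N : ℝ) + 1) ^ R := one_le_pow₀ (by
      have : (0 : ℝ) ≤ N := Nat.cast_nonneg N
      linarith)
    have e2 : ρ ≤ ((N : ℝ) + 1) ^ R * ρ := le_mul_of_one_le_left hρ0.le e1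
    linarith
  refine ⟨ρ, N, K, hρ0, hρ1, by omega, hmain, ?_⟩
  refine h1 s p ρ (1 / (2 * (b : ℝ))) T K N hs hp (by positivity) ?_ hK2 hρ0 hρ1.le hT2 hT3 ?_ ?_ ?_
  · rw [div_le_one (by positivity)]
    linarith
  · rw [hρ]
    linarith
  · have e0 : 2 * (K : ℝ) / (1 / (2 * (b : ℝ))) = ((4 * b * K : ℕ) : ℝ) := by
      push_cast
      field_simp
      ring
    rw [e0]
    have e1 : (1 : ℝ) ≤ ((4 * b * K : ℕ) : ℝ) := by
      have : 1 ≤ 4 * b * K := Nat.one_le_iff_ne_zero.2 (by positivity)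
      exact_mod_cast this
    have e2 : ((4 * b * K : ℕ) : ℝ) ^ (T.card + 1) ≤ ((4 * b * K : ℕ) : ℝ) ^ (K + 1) :=
      pow_le_pow_right₀ e1 (by omega)
    have e3 : ((4 * b * K : ℕ) : ℝ) ^ (K + 1) ≤ 2 ^ (4 * b * K * (K + 1)) := by
      rw [pow_mul]
      exact pow_le_pow_left₀ (by positivity) (le_two_pow _) _
    have e4 : ((K : ℝ) + b) ^ b ≤ 2 ^ ((K + b) * b) := by
      rw [pow_mul]
      have := le_two_pow (K + b)
      push_cast at this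
      exact pow_le_pow_left₀ (by positivity) this _
    have e5 : 4 / 2 ^ ((K + b) * b) ≤ ρ := by
      rw [hρ, div_pow]
      have e6 : (1 : ℝ) ≤ ((k₀ : ℝ) + b) ^ b := one_le_pow₀ (by
        have : (0 : ℝ) ≤ k₀ := Nat.cast_nonneg k₀
        linarith)
      have e7 : (1 : ℝ) / 2 ^ ((K + b) * b) ≤ ((k₀ : ℝ) + b) ^ b / ((K : ℝ) + b) ^ b :=
        div_le_div₀ (by positivity) e6 (by positivity) e4
      have e8 : (4 : ℝ) / 2 ^ ((K + b) * b) = 4 * (1 / 2 ^ ((K + b) * b)) := by ring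
      rw [e8]
      linarith
    calc 2 * ((4 * b * K : ℕ) : ℝ) ^ (T.card + 1) * 2 ^ K ≤
        2 * 2 ^ (4 * b * K * (K + 1)) * 2 ^ K := by
          have := e2.trans e3
          gcongr
      _ ≤ 4 * 2 ^ (4 * b * K * (K + 1)) * 2 ^ K * 2 := by
          have e9 : (0 : ℝ) < 2 ^ (4 * b * K * (K + 1)) * 2 ^ K := by positivity
          nlinarith
      _ = 4 / 2 ^ ((K + b) * b) * 2 ^ N := by
          rw [hN, pow_succ, pow_add, pow_add]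
          field_simp
      _ ≤ ρ * 2 ^ N := mul_le_mul_of_nonneg_right e5 (by positivity)
  · rw [hN]
    nlinarith [Nat.zero_le (4 * b * K * (K + 1)), Nat.zero_le ((K + b) * b)]

end Pool.Agent.Q88.MK
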