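import Pool.Agent.Q88.MK.Stm

/-! Project MK (helper88), job STE (helper184): one step of the recursion. -/

set_option autoImplicit false

open Set MvPolynomial

noncomputable section

namespace Pool.Agent.Q88.MK

namespace STE

lemma ev_mul (P Q : Pol) (x y : ℝ) : ev (P * Q) x y = ev P x y * ev Q x y := by
  unfold ev
  rw [map_mul]

lemma ev_pow (P : Pol) (n : ℕ) (x y : ℝ) : ev (P ^ n) x y = ev P x y ^ n := by
  unfold ev
  rw [map_pow]

end STE

open STE in
/-- **JOB STE**. -/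
theorem ste (h : S_scl) : S_ste := by
  intro s p ρ N D hs hp hρ hρ1 hN hL
  obtain ⟨F, hFd, hF0, hbig, κ₀, hκ₀, hsmall⟩ := hL
  have hps : 0 < p - s := by linarith
  refine ⟨min 1 (κ₀ ^ (1 / (p - s))), lt_min one_pos (Real.rpow_pos_of_pos hκ₀ _), min_le_left _ _,
    fun δ hδ hδ1 n hG => ?_⟩
  obtain ⟨Q, hQd, hQ0, hQ⟩ := hG
  obtain ⟨G, hGd, hG⟩ := h F (1 / δ) (1 / δ ^ s)
  have hδs : 0 < δ ^ s := Real.rpow_pos_of_pos hδ s
  have hκ : δ ^ (p - s) ≤ κ₀ := by
    have h1 : δ ≤ κ₀ ^ (1 / (p - s)) := hδ1.trans (min_le_right _ _)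
    have h2 := Real.rpow_le_rpow hδ.le h1 hps.le
    rwa [← Real.rpow_mul hκ₀.le, one_div, inv_mul_cancel₀ hps.ne', Real.rpow_one] at h2
  refine ⟨Q ^ N * G, ?_, ?_, fun x y hxy => ?_⟩
  · refine (totalDegree_mul _ _).trans (add_le_add ((totalDegree_pow _ _).trans ?_) (hGd.trans hFd))
    exact Nat.mul_le_mul le_rfl hQd
  · rw [ev_mul, ev_pow, hQ0, hG, mul_zero, mul_zero, hF0, one_pow, one_mul]
  · obtain ⟨hx0, hx1, hy1, hy2⟩ := hxy
    obtain ⟨hQ1, hQ2⟩ := hQ x y ⟨hx0, hx1, hy1, hy2⟩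
    rw [ev_mul, ev_pow, hG, abs_mul, abs_pow]
    set x' : ℝ := 1 / δ * x with hx'
    set y' : ℝ := 1 / δ ^ s * y with hy'
    have hx'd : x' = x / δ := by rw [hx']; ring
    have hy'd : y' = y / δ ^ s := by rw [hy']; ring
    have hx'0 : 0 ≤ x' := by rw [hx'd]; positivity
    have e1 : x' ^ s = x ^ s / δ ^ s := by rw [hx'd, Real.div_rpow hx0 hδ.le]
    have e2 : δ ^ (p - s) * x' ^ p = x ^ p / δ ^ s := by
      rw [hx'd, Real.div_rpow hx0 hδ.le, Real.rpow_sub hδ]
      have h3 : δ ^ p ≠ 0 := (Real.rpow_pos_of_pos hδ p).ne'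
      field_simp
    have hy1' : x' ^ s ≤ y' := by
      rw [e1, hy'd]
      exact div_le_div_of_nonneg_right hy1 hδs.le
    have hy2' : y' ≤ x' ^ s + δ ^ (p - s) * x' ^ p := by
      rw [e1, e2, hy'd, ← add_div]
      exact div_le_div_of_nonneg_right hy2 hδs.le
    rcases le_or_gt x δ with hxδ | hxδ
    · have hx'1 : x' ≤ 1 := by
        rw [hx'd]
        exact (div_le_one hδ).2 hxδ
      obtain ⟨h4, h5⟩ := hsmall _ (Real.rpow_nonneg hδ.le _) hκ x' y' hx'0 hx'1 hy1' hy2'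
      have h6 : |ev Q x y| ^ N ≤ 1 := pow_le_one₀ (abs_nonneg _) hQ1
      have h7 : |ev Q x y| ^ N * |ev F x' y'| ≤ |ev F x' y'| :=
        mul_le_of_le_one_left (abs_nonneg _) h6
      refine ⟨h7.trans h4, fun h8 => h7.trans ?_⟩
      have h9 : ρ ≤ x' := by
        rw [hx'd, le_div_iff₀ hδ]
        exact h8
      refine (h5 h9).trans (le_of_eq ?_)
      rw [hx'd]
      have hx00 : x ≠ 0 := by
        rintro rfl
        have := mul_pos hρ hδ
        linarith
      field_simp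
    · have hx00 : 0 < x := hδ.trans hxδ
      have hx'1 : 1 ≤ x' := by
        rw [hx'd]
        exact (one_le_div hδ).2 hxδ.le
      have hx'p : 0 < x' := lt_of_lt_of_le one_pos hx'1
      have e3 : δ ^ (p - s) * x' ^ p = x ^ (p - s) * x' ^ s := by
        rw [e2, e1, Real.rpow_sub hx00]
        have h3 : x ^ s ≠ 0 := (Real.rpow_pos_of_pos hx00 s).ne'
        field_simp
      have h4 : x ^ (p - s) ≤ 1 := Real.rpow_le_one hx0 hx1 hps.le
      have h5 : 0 ≤ x' ^ s := Real.rpow_nonneg hx'0 s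
      have h6 : y' ≤ 2 * x' ^ s := by
        rw [e3] at hy2'
        nlinarith
      have h7 := hbig x' y' hx'1 (h5.trans hy1') h6
      have h8 := hQ2 hxδ.le
      have h9 : δ / x = 1 / x' := by
        rw [hx'd]
        field_simp
      rw [h9] at h8
      have h10 : |ev Q x y| ^ N ≤ (1 / 2 * (1 / x')) ^ N := pow_le_pow_left₀ (abs_nonneg _) h8 N
      have h11 : |ev Q x y| ^ N * |ev F x' y'| ≤ 1 / 2 * (ρ * δ / x) := by
        obtain ⟨M, rfl⟩ : ∃ M, N = M + 1 := ⟨N - 1, by omega⟩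
        calc |ev Q x y| ^ (M + 1) * |ev F x' y'| ≤
            (1 / 2 * (1 / x')) ^ (M + 1) * (ρ / 2 * 2 ^ (M + 1) * x' ^ (M + 1 - 1)) :=
              mul_le_mul h10 h7 (abs_nonneg _) (by positivity)
          _ = 1 / 2 * (ρ * (1 / x')) := by
              rw [Nat.add_sub_cancel, mul_pow, one_div, inv_pow, one_div, inv_pow, pow_succ x' M]
              field_simp
          _ = 1 / 2 * (ρ * δ / x) := by
              rw [← h9]
              ring
      refine ⟨h11.trans ?_, fun _ => h11⟩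
      have h12 : ρ * δ / x ≤ 1 := by
        rw [div_le_one hx00]
        nlinarith
      linarith

end Pool.Agent.Q88.MK
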